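import Pool.Agent.U517.DE.Hex

set_option autoImplicit false

/-!
# Euclidean Dirichlet improvability

A sufficient condition: `|2 A x + B|` is bounded below for the integral forms `(A, B, C)` of
discriminant `-3` with large `A`.
-/

open Matrix MatrixGroups

namespace Pool.Agent.U517.DE

/-- reduction of a lattice basis -/
lemma reduce (x y : ℝ) (hy : 0 < y) : ∃ a b c d : ℤ, a * d - b * c = 1 ∧ ∃ u v : ℝ,
    |u| ≤ 1 / 2 ∧ 1 ≤ u ^ 2 + v ^ 2 ∧ 0 < v ∧ u * (c * x + d) - v * (c * y) = a * x + b ∧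
    u * (c * y) + v * (c * x + d) = a * y := by
  set z : UpperHalfPlane := ⟨⟨x, y⟩, hy⟩ with hz
  obtain ⟨g, hg1, hg2⟩ := ModularGroup.exists_smul_mem_fd z
  have hdet : g 0 0 * g 1 1 - g 0 1 * g 1 0 = 1 := by
    have := g.det_coe
    rwa [Matrix.det_fin_two] at this
  have hw := UpperHalfPlane.coe_specialLinearGroup_apply g z
  set w : UpperHalfPlane := g • z with hwdef
  have hzc : (z : ℂ) = ⟨x, y⟩ := rfl
  have hden : ((g 1 0 : ℤ) : ℂ) * z + ((g 1 1 : ℤ) : ℂ) ≠ 0 := by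
    intro h0
    have him := congrArg Complex.im h0
    have hre := congrArg Complex.re h0
    rw [hzc] at him hre
    simp at him hre
    have hc : (g 1 0 : ℤ) = 0 := by
      rcases him with h | h
      · exact h
      · exact absurd h hy.ne'
    rw [hc] at hre hdet
    have hd : (g 1 1 : ℤ) = 0 := by
      simpa using hre
    rw [hd] at hdet
    simp at hdet
  have hw2 : (w : ℂ) * (((g 1 0 : ℤ) : ℂ) * z + ((g 1 1 : ℤ) : ℂ)) =
      ((g 0 0 : ℤ) : ℂ) * z + ((g 0 1 : ℤ) : ℂ) := by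
    rw [hw]
    have : ∀ k : ℤ, (((algebraMap ℤ ℝ) k : ℝ) : ℂ) = (k : ℂ) := fun k => by simp
    simp only [this]
    exact div_mul_cancel₀ _ hden
  refine ⟨g 0 0, g 0 1, g 1 0, g 1 1, hdet, w.re, w.im, hg2, ?_, w.im_pos, ?_, ?_⟩
  · have : Complex.normSq (w : ℂ) = w.re ^ 2 + w.im ^ 2 := by
      rw [Complex.normSq_apply]
      simp only [UpperHalfPlane.coe_re, UpperHalfPlane.coe_im]
      ring
    rw [← this]
    exact hg1
  · have := congrArg Complex.re hw2
    rw [hzc] at this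
    simp at this
    linarith
  · have := congrArg Complex.im hw2
    rw [hzc] at this
    simp at this
    linarith

/-- The critical radius of the Euclidean norm of the plane. -/
noncomputable def r2 : ℝ := √(2 / √3)

/-- The numbers which are Dirichlet-improvable for the Euclidean norm: for some `c < 1` and all
large `t` the lattice `Λ_x = {(p + q x, q)}` has a nonzero point in the image of the disc of radius
`r2` under `diag (c / t, t)`. -/
def DI2 : Set ℝ :=
  {x | ∃ c : ℝ, 0 < c ∧ c < 1 ∧ ∀ᶠ t : ℝ in Filter.atTop, ∃ p q : ℤ, (p, q) ≠ (0, 0) ∧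
    (t * (p + q * x) / c) ^ 2 + (q / t) ^ 2 ≤ r2 ^ 2}

lemma r2_sq : r2 ^ 2 = 2 / √3 := Real.sq_sqrt (by positivity)

lemma bnds {c D y v : ℝ} (hy : 0 < y) (hv : 0 < v) (h : v * (D ^ 2 + (c * y) ^ 2) = y) :
    |c * D| ≤ 1 / (2 * v) ∧ c ^ 2 * y ≤ 1 / v := by
  constructor
  · rw [le_div_iff₀ (by positivity)]
    have h5 : |c * D| * y * 2 ≤ D ^ 2 + (c * y) ^ 2 := by
      have : |c * D| * y = |D| * |c * y| := by
        rw [abs_mul, abs_mul, abs_of_pos hy]; ring
      rw [this, ← sq_abs D, ← sq_abs (c * y)]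
      linarith [two_mul_le_add_sq |D| |c * y|]
    have h6 : |c * D| * (2 * v) * y ≤ 1 * y := by
      calc |c * D| * (2 * v) * y = v * (|c * D| * y * 2) := by ring
        _ ≤ v * (D ^ 2 + (c * y) ^ 2) := mul_le_mul_of_nonneg_left h5 hv.le
        _ = 1 * y := by rw [h, one_mul]
    exact le_of_mul_le_mul_right h6 hy
  · rw [le_div_iff₀ hv]
    have h6 : c ^ 2 * y * v * y ≤ 1 * y := by
      have : c ^ 2 * y * v * y = v * (c * y) ^ 2 := by ring
      rw [this]
      linarith [mul_nonneg hv.le (sq_nonneg D)]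
    exact le_of_mul_le_mul_right h6 hy

/-- the form of a hexagonal point close to a reduced point -/
lemma near {x y : ℝ} (hy : 0 < y) {a b c d : ℤ} (hdet : a * d - b * c = 1) {u v : ℝ}
    (hv : 0 < v) (h1 : u * (c * x + d) - v * (c * y) = a * x + b)
    (h2 : u * (c * y) + v * (c * x + d) = a * y) (σ : ℤ) (hσ : σ ^ 2 = 1)
    (hu : |u| ≤ 1 / 2) (hσu : σ * u = |u|) (huv : 1 ≤ u ^ 2 + v ^ 2) {h : ℝ}
    (hh : v ^ 2 ≤ 3 / 4 + h) (hh1 : h ≤ 1 / 10) :
    ∃ A B : ℤ, Hex A B ∧ |2 * (A:ℝ) * x + B| ≤ 14 * h ∧ 1 ≤ 2 * A * y := by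
  set D : ℝ := c * x + d with hD
  have hdetr : (a:ℝ) * d - b * c = 1 := by exact_mod_cast hdet
  have hσr : (σ:ℝ) ^ 2 = 1 := by exact_mod_cast hσ
  have hy2 : v * (D ^ 2 + (c * y) ^ 2) = y := by
    have e1 : v * (D ^ 2 + (c * y) ^ 2) =
        D * (u * (c * y) + v * D) - (c * y) * (u * D - v * (c * y)) := by ring
    rw [e1, h1, h2, hD]
    linear_combination y * hdetr
  set s : ℝ := 1 / 2 - |u| with hs
  have hs0 : 0 ≤ s := by rw [hs]; linarith
  have hs1 : s ≤ 1 / 2 := by rw [hs]; linarith [abs_nonneg u]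
  have husq : u ^ 2 = (1 / 2 - s) ^ 2 := by
    rw [hs]
    rw [show (1 / 2 - (1 / 2 - |u|)) = |u| by ring, sq_abs]
  have hs2 : s - s ^ 2 ≤ v ^ 2 - 3 / 4 := by nlinarith
  have hs3 : s / 2 ≤ s - s ^ 2 := by nlinarith
  have hsh : s ≤ 2 * h := by linarith
  have hh0 : 0 ≤ h := by linarith
  have hv1 : 86 / 100 ≤ v := by
    have : (86 / 100 : ℝ) ^ 2 ≤ v ^ 2 := by nlinarith
    exact (sq_le_sq₀ (by norm_num) hv.le).1 this
  set f1 : ℝ := u ^ 2 - v ^ 2 - σ * u + 1 with hf1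
  set f2 : ℝ := v * (2 * u - σ) with hf2
  have hf1e : f1 = 3 / 4 + s ^ 2 - v ^ 2 := by
    rw [hf1, hσu, husq, show |u| = 1 / 2 - s by rw [hs]; ring]
    ring
  have hf1b : |f1| ≤ h := by
    rw [hf1e, abs_le]
    constructor <;> nlinarith
  have h2s : |2 * u - σ| = 2 * s := by
    have e : 2 * u - σ = σ * (2 * |u| - 1) := by
      rw [← hσu]
      linear_combination -2 * u * hσr + 0 * hσr
    have hσa : |(σ:ℝ)| = 1 := by
      have : |(σ:ℝ)| ^ 2 = 1 := by rw [sq_abs, hσr]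
      exact (pow_eq_one_iff_of_nonneg (abs_nonneg _) two_ne_zero).1 this
    rw [e, abs_mul, hσa, one_mul, hs, abs_of_nonpos (by linarith)]
    ring
  have hf2b : |f2| = v * (2 * s) := by rw [hf2, abs_mul, h2s, abs_of_pos hv]
  refine ⟨a ^ 2 - σ * a * c + c ^ 2, 2 * a * b - σ * (a * d + b * c) + 2 * c * d, ⟨?_, ?_⟩, ?_, ?_⟩
  · by_contra hneg
    push Not at hneg
    have e : 4 * (a ^ 2 - σ * a * c + c ^ 2) = (2 * a - σ * c) ^ 2 + 3 * c ^ 2 := by
      linear_combination -(c ^ 2) * hσ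
    have hc : c = 0 := by
      have : c ^ 2 ≤ 0 := by nlinarith [sq_nonneg (2 * a - σ * c)]
      exact pow_eq_zero_iff (two_ne_zero) |>.1 (le_antisymm this (sq_nonneg c))
    subst hc
    have ha : a = 0 := by
      have : a ^ 2 ≤ 0 := by nlinarith
      exact pow_eq_zero_iff (two_ne_zero) |>.1 (le_antisymm this (sq_nonneg a))
    subst ha
    simp at hdet
  · refine ⟨b ^ 2 - σ * b * d + d ^ 2, ?_⟩
    have hd2 : (a * d - b * c) ^ 2 = 1 := by rw [hdet]; norm_num
    linear_combination -3 * hd2 + (a * d - b * c) ^ 2 * hσ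
  · push_cast
    have key : y * (2 * ((a:ℝ) ^ 2 - σ * a * c + c ^ 2) * x +
        (2 * a * b - σ * (a * d + b * c) + 2 * c * d)) =
        y * (2 * (c * D) * f1 - 2 * (c ^ 2 * y) * f2 + (2 * u - σ)) := by
      have ha : (a:ℝ) * y = u * (c * y) + v * D := h2.symm
      have hP : (a:ℝ) * x + b = u * D - v * (c * y) := h1.symm
      have e1 : y * (2 * ((a:ℝ) ^ 2 - σ * a * c + c ^ 2) * x +
        (2 * a * b - σ * (a * d + b * c) + 2 * c * d)) =
        2 * (a * y) * (a * x + b) - σ * (a * y) * D - σ * (c * y) * (a * x + b) +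
          2 * (c * y) * D := by
        rw [hD]; ring
      rw [e1, ha, hP, hf1, hf2]
      linear_combination (2 * u - σ) * hy2
    have key2 := mul_left_cancel₀ hy.ne' key
    rw [key2]
    obtain ⟨hcD, hcy⟩ := bnds hy hv hy2
    have hvi : 1 / v ≤ 118 / 100 := by
      rw [div_le_iff₀ hv]; linarith
    have hvi2 : 1 / (2 * v) ≤ 59 / 100 := by
      rw [div_le_iff₀ (by positivity)]; linarith
    have t1 : |2 * (c * D) * f1| ≤ 118 / 100 * h := by
      rw [abs_mul, abs_mul, abs_two]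
      have : |c * D| * |f1| ≤ 59 / 100 * h :=
        mul_le_mul (hcD.trans hvi2) hf1b (abs_nonneg _) (by norm_num)
      linarith
    have t2 : |2 * (c ^ 2 * y) * f2| ≤ 4 * s := by
      rw [abs_mul, hf2b, abs_of_nonneg (by positivity)]
      have e : 1 / v * v = 1 := by field_simp
      calc 2 * (c ^ 2 * y) * (v * (2 * s)) = (c ^ 2 * y) * v * (4 * s) := by ring
        _ ≤ 1 / v * v * (4 * s) := by gcongr
        _ = 4 * s := by rw [e, one_mul]
    have t3 := abs_add_le (2 * (c * D) * f1 - 2 * (c ^ 2 * y) * f2) (2 * u - σ)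
    have t4 := abs_sub (2 * (c * D) * f1) (2 * (c ^ 2 * y) * f2)
    linarith
  · push_cast
    have key : y * (((a:ℝ) ^ 2 - σ * a * c + c ^ 2) * y) =
        y * ((c * D) * f2 + (c ^ 2 * y) * f1 + v) := by
      have ha : (a:ℝ) * y = u * (c * y) + v * D := h2.symm
      have e1 : y * (((a:ℝ) ^ 2 - σ * a * c + c ^ 2) * y) =
        (a * y) ^ 2 - σ * (a * y) * (c * y) + (c * y) ^ 2 := by ring
      rw [e1, ha, hf1, hf2]
      linear_combination v * hy2
    have key2 := mul_left_cancel₀ hy.ne' key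
    obtain ⟨hcD, hcy⟩ := bnds hy hv hy2
    have hvi : 1 / v ≤ 118 / 100 := by
      rw [div_le_iff₀ hv]; linarith
    have t1 : |(c * D) * f2| ≤ s := by
      rw [abs_mul, hf2b]
      have e : 1 / (2 * v) * (v * (2 * s)) = s := by field_simp
      calc |c * D| * (v * (2 * s)) ≤ 1 / (2 * v) * (v * (2 * s)) :=
            mul_le_mul_of_nonneg_right hcD (by positivity)
        _ = s := e
    have t2 : |(c ^ 2 * y) * f1| ≤ 118 / 100 * h := by
      rw [abs_mul, abs_of_nonneg (by positivity : 0 ≤ (c:ℝ) ^ 2 * y)]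
      exact mul_le_mul (hcy.trans hvi) hf1b (abs_nonneg _) (by norm_num)
    have t3 := neg_abs_le ((c * D) * f2)
    have t4 := neg_abs_le ((c ^ 2 * y) * f1)
    have e : 2 * ((a:ℝ) ^ 2 - σ * a * c + c ^ 2) * y =
      2 * (((a:ℝ) ^ 2 - σ * a * c + c ^ 2) * y) := by ring
    rw [e, key2]
    linarith

/-- A sufficient condition for the Dirichlet improvability. -/
theorem mem_DI2 {x ε A₀ : ℝ} (hε : 0 < ε)
    (hx : ∀ A B : ℤ, Hex A B → A₀ ≤ A → ε ≤ |2 * (A:ℝ) * x + B|) : x ∈ DI2 := by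
  set h : ℝ := min (ε / 15) (1 / 10) with hh
  have h0 : 0 < h := by positivity
  have hle1 : h ≤ ε / 15 := min_le_left _ _
  have hle2 : h ≤ 1 / 10 := min_le_right _ _
  set κ : ℝ := √(3 / (3 + 4 * h)) with hκ
  have hκ0 : 0 < κ := by positivity
  have hκ2 : κ ^ 2 = 3 / (3 + 4 * h) := Real.sq_sqrt (by positivity)
  have hκ1 : κ < 1 := by
    rw [hκ, Real.sqrt_lt' one_pos, one_pow, div_lt_one (by positivity)]
    linarith
  refine ⟨κ, hκ0, hκ1, Filter.eventually_atTop.2 ⟨max 1 (2 * |A₀|), fun t ht => ?_⟩⟩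
  have ht1 : 1 ≤ t := (le_max_left _ _).trans ht
  have ht2 : 2 * |A₀| ≤ t := (le_max_right _ _).trans ht
  have ht0 : 0 < t := by linarith
  have hy : 0 < κ / t ^ 2 := by positivity
  set y : ℝ := κ / t ^ 2 with hyd
  obtain ⟨a, b, c, d, hdet, u, v, hu, huv, hv, h1, h2⟩ := reduce x y hy
  refine ⟨d, c, ?_, ?_⟩
  · intro h3
    rw [Prod.mk.injEq] at h3
    rw [h3.1, h3.2] at hdet
    simp at hdet
  by_contra hlt
  push Not at hlt
  rw [r2_sq] at hlt
  have hdetr : (a:ℝ) * d - b * c = 1 := by exact_mod_cast hdet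
  have hy2 : v * ((c * x + d) ^ 2 + (c * y) ^ 2) = y := by
    have e1 : v * ((c * x + d) ^ 2 + (c * y) ^ 2) =
        (c * x + d) * (u * (c * y) + v * (c * x + d)) -
          (c * y) * (u * (c * x + d) - v * (c * y)) := by ring
    rw [e1, h1, h2]
    linear_combination y * hdetr
  have e2 : (t * (d + c * x) / κ) ^ 2 + (c / t) ^ 2 = 1 / (κ * v) := by
    have hk : κ = y * t ^ 2 := by rw [hyd]; field_simp
    have e3 : (t * (d + c * x) / κ) ^ 2 + (c / t) ^ 2 =
        ((c * x + d) ^ 2 + (c * y) ^ 2) / (y ^ 2 * t ^ 2) := by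
      rw [hk]
      field_simp
      ring
    rw [e3, hk, div_eq_div_iff (by positivity) (by positivity)]
    linear_combination (y * t ^ 2) * hy2
  rw [e2] at hlt
  have hv2 : v ^ 2 ≤ 3 / 4 + h := by
    have h3 : (0:ℝ) < √3 := by positivity
    rw [div_lt_div_iff₀ h3 (by positivity)] at hlt
    have h4 : (2 * (κ * v)) ^ 2 < (1 * √3) ^ 2 := pow_lt_pow_left₀ hlt (by positivity) two_ne_zero
    rw [mul_pow, mul_pow, hκ2, one_mul, Real.sq_sqrt (by norm_num)] at h4
    have h5 : 2 ^ 2 * (3 / (3 + 4 * h) * v ^ 2) = 12 * v ^ 2 / (3 + 4 * h) := by ring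
    rw [h5, div_lt_iff₀ (by positivity)] at h4
    linarith
  obtain ⟨σ, hσ, hσu⟩ : ∃ σ : ℤ, σ ^ 2 = 1 ∧ σ * u = |u| := by
    rcases le_total 0 u with h3 | h3
    · exact ⟨1, by norm_num, by rw [abs_of_nonneg h3]; push_cast; ring⟩
    · exact ⟨-1, by norm_num, by rw [abs_of_nonpos h3]; push_cast; ring⟩
  obtain ⟨A, B, hAB, h3, h4⟩ := near hy hdet hv h1 h2 σ hσ hu hσu huv hv2 hle2
  have hA : A₀ ≤ A := by
    have h5 : y ≤ 1 / t := by
      rw [hyd, div_le_div_iff₀ (by positivity) ht0]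
      nlinarith
    have hAr : (0:ℝ) < A := by exact_mod_cast hAB.1
    have h6 : 1 ≤ 2 * A * (1 / t) := h4.trans (mul_le_mul_of_nonneg_left h5 (by positivity))
    have h7 : t ≤ 2 * A := by
      rw [mul_one_div, le_div_iff₀ ht0] at h6
      linarith
    linarith [le_abs_self A₀]
  have := hx A B hAB hA
  linarith

end Pool.Agent.U517.DE
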