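import Mathlib

set_option autoImplicit false

/-!
# Integral binary quadratic forms of discriminant `-3`

The points of the upper half-plane which correspond to hexagonal lattices are
`(-B + i √3) / (2 A)` for the integral forms `(A, B, C)` of discriminant `-3`.
-/

namespace Pool.Agent.U517.DE

/-- `(A, B)` are the first two coefficients of a positive definite integral binary quadratic form
of discriminant `-3`. -/
def Hex (A B : ℤ) : Prop := 0 < A ∧ ∃ C : ℤ, B ^ 2 + 3 = 4 * A * C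

lemma odd_of {A B C : ℤ} (h : B ^ 2 + 3 = 4 * A * C) : Odd B := by
  by_contra hn
  rw [Int.not_odd_iff_even] at hn
  obtain ⟨k, rfl⟩ := hn
  have : 4 * (A * C - k ^ 2) = 3 := by linear_combination -h
  omega

lemma sep {A B A' B' : ℤ} (h : Hex A B) (h' : Hex A' B') (hne : ¬ (A = A' ∧ B = B'))
    (h1 : A ≤ A') (h2 : A' ≤ 2 * A) : (2 * A) ^ 2 ≤ (B' * A - B * A') ^ 2 := by
  obtain ⟨hA, C, hC⟩ := h
  obtain ⟨hA', C', hC'⟩ := h'
  obtain ⟨b, hb⟩ := odd_of hC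
  obtain ⟨b', hb'⟩ := odd_of hC'
  have key : (B' * A - B * A') ^ 2 + 3 * (A' - A) ^ 2 =
      2 * (A * A') * (2 * A * C' + 2 * A' * C - B * B' - 3) := by
    linear_combination A ^ 2 * hC' + A' ^ 2 * hC
  have hAA : 0 < A * A' := mul_pos hA hA'
  obtain ⟨N, hN⟩ : ∃ N : ℤ, 2 * A * C' + 2 * A' * C - B * B' - 3 = 2 * N := by
    refine ⟨A * C' + A' * C - 2 * b * b' - b - b' - 2, ?_⟩
    rw [hb, hb']
    ring
  rw [hN] at key
  have hN0 : 0 ≤ N := by
    by_contra hlt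
    push Not at hlt
    nlinarith [sq_nonneg (B' * A - B * A'), sq_nonneg (A' - A)]
  have hN1 : 1 ≤ N := by
    rcases hN0.lt_or_eq with h3 | h3
    · omega
    · exfalso
      rw [← h3] at key
      have e1 : (A' - A) ^ 2 = 0 := by nlinarith [sq_nonneg (B' * A - B * A'), sq_nonneg (A' - A)]
      have e2 : A' = A := by
        have := pow_eq_zero_iff (two_ne_zero) |>.1 e1
        omega
      subst e2
      have e3 : (B' * A' - B * A') ^ 2 = 0 := by
        nlinarith [sq_nonneg (B' * A' - B * A')]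
      have e4 : (B' - B) * A' = 0 := by
        have := pow_eq_zero_iff (two_ne_zero) |>.1 e3
        linarith
      rcases mul_eq_zero.1 e4 with h5 | h5
      · exact hne ⟨rfl, by omega⟩
      · omega
  nlinarith [mul_nonneg hAA.le (show 0 ≤ N - 1 by omega), mul_nonneg (show 0 ≤ A' - A by omega)
    (show 0 ≤ 2 * A - A' by omega), mul_nonneg (show 0 ≤ A' - A by omega) hA.le]

/-- the centre -/
noncomputable def ctr (A B : ℤ) : ℝ := -(B:ℝ) / (2 * A)

lemma abs_eq {A B : ℤ} (hA : 0 < A) (y : ℝ) : |2 * (A:ℝ) * y + B| = 2 * A * |y - ctr A B| := by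
  have hA' : (0:ℝ) < A := by exact_mod_cast hA
  have : 2 * (A:ℝ) * y + B = 2 * A * (y - ctr A B) := by
    unfold ctr
    field_simp
    ring
  rw [this, abs_mul, abs_of_pos (by positivity)]

lemma sep_real {A B A' B' : ℤ} (h : Hex A B) (h' : Hex A' B') (hne : ¬ (A = A' ∧ B = B'))
    (h1 : A ≤ A') (h2 : A' ≤ 2 * A) : 1 / (A' : ℝ) ≤ |ctr A B - ctr A' B'| := by
  have hs := sep h h' hne h1 h2
  have hA : (0:ℝ) < A := by exact_mod_cast h.1
  have hA' : (0:ℝ) < A' := by exact_mod_cast h'.1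
  have hs' : (2 * (A:ℝ)) ^ 2 ≤ ((B':ℝ) * A - B * A') ^ 2 := by exact_mod_cast hs
  have h3 : 2 * (A:ℝ) ≤ |(B':ℝ) * A - B * A'| := by
    rw [← abs_of_pos (show (0:ℝ) < 2 * A by positivity)]
    exact sq_le_sq.1 hs'
  have e : ctr A B - ctr A' B' = ((B':ℝ) * A - B * A') / (2 * A * A') := by
    unfold ctr
    field_simp
    ring
  rw [e, abs_div, abs_of_pos (show (0:ℝ) < 2 * A * A' by positivity), div_le_div_iff₀ hA'
    (by positivity)]
  nlinarith

/-- Of two neighbouring fractions at least one is not close to a centre. -/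
lemma dichotomy {x ε A₁ : ℝ} (hε : 0 < ε) (hε1 : ε ≤ 1)
    (hx : ∀ A B : ℤ, Hex A B → A₁ ≤ A → ε ≤ |2 * (A:ℝ) * x + B|) {p q p' q' : ℤ}
    (hdet : p * q' - q * p' = 1) (hq : 1 ≤ q) (hqq : q ≤ q') (hqq2 : q' ≤ 2 * q)
    (h1 : |x - p / q| ≤ 6 / (q:ℝ) ^ 2) (h2 : |x - p' / q'| ≤ 6 / (q':ℝ) ^ 2) :
    (∀ A B : ℤ, Hex A B → A₁ ≤ A → ε / 200 ≤ |2 * (A:ℝ) * (p / q) + B|) ∨
    (∀ A B : ℤ, Hex A B → A₁ ≤ A → ε / 200 ≤ |2 * (A:ℝ) * (p' / q') + B|) := by
  by_contra hcon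
  push Not at hcon
  obtain ⟨⟨A, B, hAB, hA1, hb1⟩, ⟨A', B', hAB', hA1', hb2⟩⟩ := hcon
  have bound : ∀ (A B p q : ℤ), Hex A B → A₁ ≤ A → 1 ≤ q → |x - p / q| ≤ 6 / (q:ℝ) ^ 2 →
      |2 * (A:ℝ) * (p / q) + B| < ε / 200 → ∀ C : ℤ, B ^ 2 + 3 = 4 * A * C →
      0 ≤ ((A * p ^ 2 + B * p * q + C * q ^ 2 : ℤ) : ℝ) ∧
      ((A * p ^ 2 + B * p * q + C * q ^ 2 : ℤ) : ℝ) ≤ 24 / ε := by
    intro A B p q hAB hA1 hq h1 hb C hC
    have hA : (0:ℝ) < A := by exact_mod_cast hAB.1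
    have hqr : (1:ℝ) ≤ q := by exact_mod_cast hq
    have hq0 : (0:ℝ) < q := by linarith
    have hCr : (B:ℝ) ^ 2 + 3 = 4 * A * C := by exact_mod_cast hC
    set N : ℝ := ((A * p ^ 2 + B * p * q + C * q ^ 2 : ℤ) : ℝ) with hN
    have eN : 4 * A * N = q ^ 2 * ((2 * (A:ℝ) * (p / q) + B) ^ 2 + 3) := by
      rw [hN]
      push_cast
      field_simp
      linear_combination -(q:ℝ) ^ 2 * hCr
    have hg := hx A B hAB hA1
    have h3 : ε ≤ ε / 200 + 2 * A * (6 / (q:ℝ) ^ 2) := by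
      have e : 2 * (A:ℝ) * x + B = (2 * (A:ℝ) * (p / q) + B) + 2 * A * (x - p / q) := by ring
      rw [e] at hg
      have h4 := abs_add_le (2 * (A:ℝ) * (p / q) + B) (2 * A * (x - p / q))
      have h5 : |2 * (A:ℝ) * (x - p / q)| ≤ 2 * A * (6 / (q:ℝ) ^ 2) := by
        rw [abs_mul, abs_of_pos (by positivity : (0:ℝ) < 2 * A)]
        exact mul_le_mul_of_nonneg_left h1 (by positivity)
      linarith
    have h6 : ε * q ^ 2 ≤ 24 * A := by
      have h7 : ε / 2 ≤ 12 * A / (q:ℝ) ^ 2 := by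
        have : 2 * (A:ℝ) * (6 / (q:ℝ) ^ 2) = 12 * A / (q:ℝ) ^ 2 := by ring
        linarith
      rw [le_div_iff₀ (by positivity)] at h7
      linarith
    have hsq : (2 * (A:ℝ) * (p / q) + B) ^ 2 ≤ 1 := by
      have h8 : |2 * (A:ℝ) * (p / q) + B| ≤ 1 := by linarith
      rw [← sq_abs]
      exact pow_le_one₀ (abs_nonneg _) h8
    have hN0 : 0 ≤ N := by
      have : 0 ≤ 4 * A * N := by rw [eN]; positivity
      by_contra hlt
      push Not at hlt
      nlinarith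
    refine ⟨hN0, ?_⟩
    rw [le_div_iff₀ hε]
    have h9 : 4 * A * N ≤ 4 * q ^ 2 := by
      rw [eN]
      have : (0:ℝ) ≤ q ^ 2 := by positivity
      nlinarith
    have h10 : A * (N * ε) ≤ A * 24 := by nlinarith
    exact le_of_mul_le_mul_left h10 hA
  obtain ⟨hA, C, hC⟩ := id hAB
  obtain ⟨hA', C', hC'⟩ := id hAB'
  have hq' : 1 ≤ q' := by omega
  obtain ⟨n1, n2⟩ := bound A B p q hAB hA1 hq h1 hb1 C hC
  obtain ⟨m1, m2⟩ := bound A' B' p' q' hAB' hA1' hq' h2 hb2 C' hC'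
  set N : ℤ := A * p ^ 2 + B * p * q + C * q ^ 2 with hN
  set M : ℤ := A' * p' ^ 2 + B' * p' * q' + C' * q' ^ 2 with hM
  set B1 : ℤ := 2 * A * p * p' + B * (p * q' + p' * q) + 2 * C * q * q' with hB1
  set B2 : ℤ := 2 * A' * p * p' + B' * (p * q' + p' * q) + 2 * C' * q * q' with hB2
  have hqr : (0:ℝ) < q := by exact_mod_cast (by omega : 0 < q)
  have hqr' : (0:ℝ) < q' := by exact_mod_cast (by omega : 0 < q')
  have i1 : 2 * A * p + B * q = 2 * N * q' - B1 * q := by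
    rw [hN, hB1]
    linear_combination -(2 * A * p + B * q) * hdet
  have i2 : 2 * A' * p' + B' * q' = B2 * q' - 2 * M * q := by
    rw [hM, hB2]
    linear_combination -(2 * A' * p' + B' * q') * hdet
  have odd1 : Odd B1 := by
    obtain ⟨b, hb⟩ := odd_of hC
    refine ⟨A * p * p' + b * (p * q' + p' * q) + p' * q + C * q * q', ?_⟩
    rw [hB1, hb]
    linear_combination hdet
  have odd2 : Odd B2 := by
    obtain ⟨b, hb⟩ := odd_of hC'
    refine ⟨A' * p * p' + b * (p * q' + p' * q) + p' * q + C' * q * q', ?_⟩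
    rw [hB2, hb]
    linear_combination hdet
  set α : ℝ := (q':ℝ) / q with hα
  have hα1 : 1 ≤ α := by rw [hα, le_div_iff₀ hqr, one_mul]; exact_mod_cast hqq
  have hα2 : α ≤ 2 := by rw [hα, div_le_iff₀ hqr]; exact_mod_cast hqq2
  have j1 : |2 * (N:ℝ) * α - B1| < ε / 200 := by
    have e : 2 * (N:ℝ) * α - B1 = 2 * (A:ℝ) * (p / q) + B := by
      have : 2 * (A:ℝ) * p + B * q = 2 * N * q' - B1 * q := by exact_mod_cast i1
      rw [hα]
      field_simp
      linarith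
    rw [e]
    exact hb1
  have j2 : |(B2:ℝ) - 2 * M * α⁻¹| < ε / 200 := by
    have e : (B2:ℝ) - 2 * M * α⁻¹ = 2 * (A':ℝ) * (p' / q') + B' := by
      have : 2 * (A':ℝ) * p' + B' * q' = B2 * q' - 2 * M * q := by exact_mod_cast i2
      rw [hα]
      field_simp
      linarith
    rw [e]
    exact hb2
  have hαi : α⁻¹ ≤ 1 := inv_le_one_of_one_le₀ hα1
  have hαi0 : 0 < α⁻¹ := by positivity
  have e3 : (B1:ℝ) * B2 - 4 * N * M = (B1 - 2 * N * α) * B2 + 2 * N * α * (B2 - 2 * M * α⁻¹) := by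
    have : α * α⁻¹ = 1 := mul_inv_cancel₀ (by positivity)
    linear_combination 4 * (N:ℝ) * M * this
  have hB2b : |(B2:ℝ)| ≤ 2 * M + 1 := by
    have h5 := abs_sub_abs_le_abs_sub (B2:ℝ) (2 * M * α⁻¹)
    have h6 : |2 * (M:ℝ) * α⁻¹| ≤ 2 * M := by
      rw [abs_of_nonneg (by positivity)]
      nlinarith
    linarith
  have h7 : |(B1:ℝ) * B2 - 4 * N * M| < 1 := by
    rw [e3]
    refine lt_of_le_of_lt (abs_add_le _ _) ?_
    rw [abs_mul, abs_mul, abs_sub_comm (B1:ℝ)]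
    have h8 : |2 * (N:ℝ) * α| ≤ 4 * N := by
      rw [abs_of_nonneg (by positivity)]
      nlinarith
    have h9 : |2 * (N:ℝ) * α - B1| * |(B2:ℝ)| ≤ ε / 200 * (2 * M + 1) :=
      mul_le_mul j1.le hB2b (abs_nonneg _) (by positivity)
    have h10 : |2 * (N:ℝ) * α| * |(B2:ℝ) - 2 * M * α⁻¹| ≤ 4 * N * (ε / 200) :=
      mul_le_mul h8 j2.le (abs_nonneg _) (by positivity)
    have h11 : ε * (24 / ε) = 24 := by field_simp
    have h12 : ε * M ≤ 24 := by rw [← h11]; exact mul_le_mul_of_nonneg_left m2 hε.le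
    have h13 : ε * N ≤ 24 := by rw [← h11]; exact mul_le_mul_of_nonneg_left n2 hε.le
    have h14 : ε / 200 * (2 * (M:ℝ) + 1) + 4 * N * (ε / 200) =
      (2 * (ε * M) + ε + 4 * (ε * N)) / 200 := by ring
    linarith
  have h8 : B1 * B2 - 4 * N * M = 0 := by
    have : |B1 * B2 - 4 * N * M| < 1 := by exact_mod_cast h7
    exact Int.abs_lt_one_iff.1 this
  obtain ⟨k, hk⟩ := odd1.mul odd2
  obtain ⟨w, hw⟩ : ∃ w, w = N * M := ⟨_, rfl⟩
  have h9 : 2 * k + 1 = 4 * w := by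
    rw [← hk, hw]
    linear_combination h8
  omega

end Pool.Agent.U517.DE
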