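import Pool.Agent.U517.DE.Hex

set_option autoImplicit false

/-!
# The steps of the construction
-/

namespace Pool.Agent.U517.DE

open Finset

/-- The intervals of the next level which meet a neighbourhood of a centre are few. -/
lemma free (L : ℕ) (hL : 1 ≤ L) {a ρ : ℝ} (hρ : 0 < ρ) : ∃ S : Finset ℕ,
    (∀ i ∈ S, i < 2 ^ (L - 1)) ∧ 2 ^ (L - 1) ≤ S.card + 2 * L ∧
    ∀ i ∈ S, ∀ A B : ℤ, Hex A B → 1 ≤ A * (2:ℝ) ^ L * ρ → A * ρ < 1 → ∀ y : ℝ,
      a + 2 * i * (ρ / 2 ^ L) ≤ y → y ≤ a + (2 * i + 1) * (ρ / 2 ^ L) →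
      1 / ((2:ℝ) ^ L) ^ 2 ≤ |2 * (A:ℝ) * y + B| := by
  classical
  set R : ℝ := (2:ℝ) ^ L with hR
  have hR0 : 0 < R := by positivity
  have hR1 : 1 ≤ R := one_le_pow₀ (by norm_num)
  set u : ℝ := ρ / R with hu
  have hu0 : 0 < u := by positivity
  have huR : u * R = ρ := by rw [hu]; field_simp
  have huρ : u ≤ ρ := by rw [← huR]; nlinarith
  let Kl : ℕ → Prop := fun i => ∃ A B : ℤ, Hex A B ∧ 1 ≤ A * R * ρ ∧ A * ρ < 1 ∧ ∃ y : ℝ,
    a + 2 * i * u ≤ y ∧ y ≤ a + (2 * i + 1) * u ∧ |2 * (A:ℝ) * y + B| < 1 / R ^ 2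
  refine ⟨(range (2 ^ (L - 1))).filter (fun i => ¬ Kl i), fun i hi => ?_, ?_, ?_⟩
  · exact mem_range.1 (mem_filter.1 hi).1
  · have hsum := card_filter_add_card_filter_not (s := range (2 ^ (L - 1))) (fun i => Kl i)
    rw [card_range] at hsum
    have hk : ((range (2 ^ (L - 1))).filter (fun i => Kl i)).card ≤ 2 * L := by
      have hcl : ∀ i : ℕ, ∃ w : ℕ × Bool, Kl i → w.1 < L ∧ ∃ A B : ℤ, Hex A B ∧
          (2:ℝ) ^ w.1 ≤ A * R * ρ ∧ A * R * ρ < 2 ^ (w.1 + 1) ∧ A * ρ < 1 ∧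
          (w.2 = true ↔ ctr A B < a + ρ / 2) ∧ ∃ y : ℝ,
          a + 2 * i * u ≤ y ∧ y ≤ a + (2 * i + 1) * u ∧ |y - ctr A B| < u / 2 := by
        intro i
        by_cases h : Kl i
        · obtain ⟨A, B, hAB, h1, h2, y, h3, h4, h5⟩ := h
          obtain ⟨j, hj1, hj2⟩ := exists_nat_pow_near h1 (one_lt_two)
          refine ⟨(j, decide (ctr A B < a + ρ / 2)), fun _ => ⟨?_, A, B, hAB, hj1, hj2, h2, ?_,
            y, h3, h4, ?_⟩⟩
          · have : (2:ℝ) ^ j < 2 ^ L := by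
              refine lt_of_le_of_lt hj1 ?_
              calc A * R * ρ = (A * ρ) * R := by ring
                _ < 1 * R := mul_lt_mul_of_pos_right h2 hR0
                _ = 2 ^ L := by rw [one_mul]
            exact (pow_lt_pow_iff_right₀ (one_lt_two)).1 this
          · simp
          · rw [abs_eq hAB.1] at h5
            have hA : (0:ℝ) < A := by exact_mod_cast hAB.1
            have h6 : 2 * (A:ℝ) * |y - ctr A B| * R ^ 2 < 1 := by
              rwa [lt_div_iff₀ (by positivity)] at h5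
            have h7 : 2 * (A:ℝ) * R ^ 2 * |y - ctr A B| < 2 * A * R ^ 2 * (u / 2) := by
              have : 2 * (A:ℝ) * R ^ 2 * (u / 2) = A * R * (u * R) := by ring
              rw [this, huR]
              linarith
            exact lt_of_mul_lt_mul_left h7 (by positivity)
        · exact ⟨(0, true), fun h' => absurd h' h⟩
      choose w hw using hcl
      have hmaps : ∀ i ∈ (range (2 ^ (L - 1))).filter (fun i => Kl i),
          w i ∈ (range L) ×ˢ (univ : Finset Bool) := by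
        intro i hi
        have := (hw i (mem_filter.1 hi).2).1
        simp [mem_product, this]
      have hinj : Set.InjOn w ((range (2 ^ (L - 1))).filter (fun i => Kl i) : Finset ℕ) := by
        have main : ∀ i i' : ℕ, i < 2 ^ (L - 1) → i' < 2 ^ (L - 1) → Kl i → Kl i' → w i = w i' →
            ¬ i < i' := by
          intro i i' hi hi' hKi hKi' hww hlt
          obtain ⟨-, A, B, hAB, a1, a2, a3, a4, y, a5, a6, a7⟩ := hw i hKi
          obtain ⟨-, A', B', hAB', b1, b2, b3, b4, y', b5, b6, b7⟩ := hw i' hKi'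
          rw [← hww] at b1 b2 b4
          have hin : ((i:ℝ) + 1) ≤ i' := by exact_mod_cast hlt
          have hyy : y + u ≤ y' := by nlinarith
          have hpow : (2:ℝ) ^ (L - 1) * 2 = R := by
            rw [← pow_succ, Nat.sub_add_cancel hL]
          have hyr : ∀ (j : ℕ) (z : ℝ), j < 2 ^ (L - 1) → a + 2 * j * u ≤ z →
              z ≤ a + (2 * j + 1) * u → a ≤ z ∧ z ≤ a + ρ := by
            intro j z hj hz1 hz2
            have hj' : (j:ℝ) + 1 ≤ 2 ^ (L - 1) := by exact_mod_cast hj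
            constructor
            · have : 0 ≤ 2 * (j:ℝ) * u := by positivity
              linarith
            · have : (2 * (j:ℝ) + 1) * u ≤ R * u := by
                apply mul_le_mul_of_nonneg_right _ hu0.le
                linarith
              linarith
          obtain ⟨c1, c2⟩ := hyr i y hi a5 a6
          obtain ⟨c3, c4⟩ := hyr i' y' hi' b5 b6
          rw [abs_lt] at a7 b7
          by_cases heq : A = A' ∧ B = B'
          · obtain ⟨rfl, rfl⟩ := heq
            linarith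
          · have hdist : ρ < |ctr A B - ctr A' B'| := by
              have hA : (0:ℝ) < A := by exact_mod_cast hAB.1
              have hA' : (0:ℝ) < A' := by exact_mod_cast hAB'.1
              rcases le_total A A' with hle | hle
              · have h2 : A' ≤ 2 * A := by
                  have : (A':ℝ) * (R * ρ) ≤ (2 * A) * (R * ρ) := by
                    have e : (2:ℝ) ^ ((w i).1 + 1) = 2 * 2 ^ (w i).1 := by ring
                    nlinarith
                  have := le_of_mul_le_mul_right this (by positivity)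
                  exact_mod_cast this
                refine lt_of_lt_of_le ?_ (sep_real hAB hAB' heq hle h2)
                rw [lt_div_iff₀ hA']
                linarith
              · have h2 : A ≤ 2 * A' := by
                  have : (A:ℝ) * (R * ρ) ≤ (2 * A') * (R * ρ) := by
                    have e : (2:ℝ) ^ ((w i).1 + 1) = 2 * 2 ^ (w i).1 := by ring
                    nlinarith
                  have := le_of_mul_le_mul_right this (by positivity)
                  exact_mod_cast this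
                rw [abs_sub_comm]
                refine lt_of_lt_of_le ?_ (sep_real hAB' hAB
                  (fun h => heq ⟨h.1.symm, h.2.symm⟩) hle h2)
                rw [lt_div_iff₀ hA]
                linarith
            by_cases hs : (w i).2 = true
            · have d1 := a4.1 hs
              have d2 := b4.1 hs
              rw [lt_abs] at hdist
              rcases hdist with h | h <;> linarith
            · have d1 : ¬ ctr A B < a + ρ / 2 := fun h => hs (a4.2 h)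
              have d2 : ¬ ctr A' B' < a + ρ / 2 := fun h => hs (b4.2 h)
              rw [lt_abs] at hdist
              rcases hdist with h | h <;> linarith
        intro i hi i' hi' hww
        rw [mem_coe, mem_filter, mem_range] at hi hi'
        have h1 := main i i' hi.1 hi'.1 hi.2 hi'.2 hww
        have h2 := main i' i hi'.1 hi.1 hi'.2 hi.2 hww.symm
        omega
      have := card_le_card_of_injOn w hmaps hinj
      rw [card_product, card_range, Finset.card_univ, Fintype.card_bool] at this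
      linarith
    omega
  · intro i hi A B hAB h1 h2 y h3 h4
    by_contra hlt
    push Not at hlt
    exact (mem_filter.1 hi).2 ⟨A, B, hAB, h1, h2, y, h3, h4, hlt⟩

/-- `[a', a' + ρ / R]` is a subinterval of `[a, a + ρ]` which avoids the centres of the next
level. -/
def Nxt (L : ℕ) (a ρ a' : ℝ) : Prop :=
  a ≤ a' ∧ a' + ρ / 2 ^ L ≤ a + ρ ∧
  ∀ A B : ℤ, Hex A B → 1 ≤ A * (2:ℝ) ^ L * ρ → A * ρ < 1 → ∀ y : ℝ,
    a' ≤ y → y ≤ a' + ρ / 2 ^ L → 1 / ((2:ℝ) ^ L) ^ 2 ≤ |2 * (A:ℝ) * y + B|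

lemma nxt_of {L : ℕ} (hL : 1 ≤ L) {a ρ : ℝ} (hρ : 0 < ρ) {i : ℕ} (hi : i < 2 ^ (L - 1))
    (h : ∀ A B : ℤ, Hex A B → 1 ≤ A * (2:ℝ) ^ L * ρ → A * ρ < 1 → ∀ y : ℝ,
      a + 2 * i * (ρ / 2 ^ L) ≤ y → y ≤ a + (2 * i + 1) * (ρ / 2 ^ L) →
      1 / ((2:ℝ) ^ L) ^ 2 ≤ |2 * (A:ℝ) * y + B|) :
    Nxt L a ρ (a + 2 * i * (ρ / 2 ^ L)) := by
  have hpow : (2:ℝ) ^ (L - 1) * 2 = 2 ^ L := by
    rw [← pow_succ, Nat.sub_add_cancel hL]
  have hR0 : (0:ℝ) < 2 ^ L := by positivity
  have hu0 : 0 < ρ / 2 ^ L := by positivity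
  have huR : 2 ^ L * (ρ / 2 ^ L) = ρ := by field_simp
  have hi' : (i:ℝ) + 1 ≤ 2 ^ (L - 1) := by exact_mod_cast hi
  refine ⟨by have : 0 ≤ 2 * (i:ℝ) * (ρ / 2 ^ L) := by positivity
             linarith, ?_, fun A B hAB h1 h2 y h3 h4 => h A B hAB h1 h2 y h3 (by linarith)⟩
  have : (2 * (i:ℝ) + 1) * (ρ / 2 ^ L) ≤ 2 ^ L * (ρ / 2 ^ L) := by
    apply mul_le_mul_of_nonneg_right _ hu0.le
    linarith
  linarith

lemma two_mul_lt_pow {L : ℕ} (hL : 6 ≤ L) : 2 * L < 2 ^ (L - 2) := by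
  obtain ⟨k, rfl⟩ := Nat.exists_eq_add_of_le hL
  have e : 6 + k - 2 = k + 4 := by omega
  rw [e]
  induction k with
  | zero => norm_num
  | succ k ih =>
    have := ih (by omega) (by omega)
    rw [show k + 1 + 4 = (k + 4) + 1 by ring, pow_succ]
    omega

/-- a next interval in the middle half -/
lemma step_mid {L : ℕ} (hL : 6 ≤ L) (a ρ : ℝ) (hρ : 0 < ρ) : ∃ a', Nxt L a ρ a' ∧
    a + ρ / 4 ≤ a' ∧ a' + ρ / 2 ^ L ≤ a + 3 * ρ / 4 := by
  classical
  obtain ⟨S, h1, h2, h3⟩ := free L (by omega) (a := a) hρ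
  have hlt := two_mul_lt_pow hL
  obtain ⟨l, rfl⟩ := Nat.exists_eq_add_of_le hL
  have e1 : 6 + l - 1 = l + 5 := by omega
  have e2 : 6 + l - 2 = l + 4 := by omega
  rw [e1] at h2
  rw [e2] at hlt
  have hex : ∃ i ∈ S, 2 ^ (l + 3) ≤ i ∧ i < 3 * 2 ^ (l + 3) := by
    by_contra hcon
    push Not at hcon
    have hsub : S ∪ Finset.Ico (2 ^ (l + 3)) (3 * 2 ^ (l + 3)) ⊆ range (2 ^ (l + 5)) := by
      intro i hi
      rw [mem_union, mem_Ico] at hi
      rw [mem_range]
      rcases hi with hi | hi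
      · have := h1 i hi
        rwa [e1] at this
      · have : 2 ^ (l + 5) = 4 * 2 ^ (l + 3) := by ring
        omega
    have hdis : Disjoint S (Finset.Ico (2 ^ (l + 3)) (3 * 2 ^ (l + 3))) := by
      rw [Finset.disjoint_left]
      intro i hi hi2
      rw [mem_Ico] at hi2
      have := hcon i hi hi2.1
      omega
    have hc := card_le_card hsub
    rw [card_union_of_disjoint hdis, card_range, Nat.card_Ico] at hc
    have e3 : 3 * 2 ^ (l + 3) - 2 ^ (l + 3) = 2 ^ (l + 4) := by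
      have : 2 ^ (l + 4) = 2 * 2 ^ (l + 3) := by ring
      omega
    omega
  obtain ⟨i, hi, hi1, hi2⟩ := hex
  refine ⟨_, nxt_of (by omega) hρ (h1 i hi) (h3 i hi), ?_, ?_⟩
  · have h4 : (2:ℝ) ^ (6 + l) = 8 * 2 ^ (l + 3) := by ring
    have h5 : (2:ℝ) ^ (l + 3) ≤ i := by exact_mod_cast hi1
    have h6 : ρ / 4 = 2 * 2 ^ (l + 3) * (ρ / 2 ^ (6 + l)) := by
      rw [h4]; field_simp; norm_num
    have h7 : 0 < ρ / 2 ^ (6 + l) := by positivity
    rw [h6]
    have : 2 * 2 ^ (l + 3) * (ρ / 2 ^ (6 + l)) ≤ 2 * i * (ρ / 2 ^ (6 + l)) := by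
      apply mul_le_mul_of_nonneg_right _ h7.le
      linarith
    linarith
  · have h4 : (2:ℝ) ^ (6 + l) = 8 * 2 ^ (l + 3) := by ring
    have h5 : (i:ℝ) + 1 ≤ 3 * 2 ^ (l + 3) := by exact_mod_cast hi2
    have h6 : 3 * ρ / 4 = 6 * 2 ^ (l + 3) * (ρ / 2 ^ (6 + l)) := by
      rw [h4]; field_simp; norm_num
    have h7 : 0 < ρ / 2 ^ (6 + l) := by positivity
    rw [h6]
    have : (2 * (i:ℝ) + 1) * (ρ / 2 ^ (6 + l)) ≤ 6 * 2 ^ (l + 3) * (ρ / 2 ^ (6 + l)) := by
      apply mul_le_mul_of_nonneg_right _ h7.le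
      linarith
    linarith

/-- nested intervals which avoid all centres -/
lemma chain {L : ℕ} (hL : 6 ≤ L) (a ρ : ℝ) (hρ : 0 < ρ) : ∃ (x : ℝ) (c : ℕ → ℝ),
    a + ρ / 4 ≤ x ∧ x ≤ a + 3 * ρ / 4 ∧
    (∀ A B : ℤ, Hex A B → 1 ≤ A * (2:ℝ) ^ L * ρ → 1 / ((2:ℝ) ^ L) ^ 2 ≤ |2 * (A:ℝ) * x + B|) ∧
    ∀ m, a ≤ c m ∧ c m + ρ / (2 ^ L) ^ m ≤ a + ρ ∧ c m ≤ x ∧ x ≤ c m + ρ / (2 ^ L) ^ m ∧
      ∀ A B : ℤ, Hex A B → 1 ≤ A * (2:ℝ) ^ L * ρ → A * (2:ℝ) ^ L * (ρ / (2 ^ L) ^ m) < 1 →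
        ∀ y : ℝ, c m ≤ y → y ≤ c m + ρ / (2 ^ L) ^ m →
          1 / ((2:ℝ) ^ L) ^ 2 ≤ |2 * (A:ℝ) * y + B| := by
  set R : ℝ := (2:ℝ) ^ L with hR
  have hR0 : 0 < R := by positivity
  have hR1 : 1 < R := one_lt_pow₀ (by norm_num) (by omega)
  obtain ⟨a1, ha1, ha2, ha3⟩ := step_mid hL a ρ hρ
  have hst : ∀ (b : ℝ) (k : ℕ), ∃ b', Nxt L b (ρ / R ^ k) b' := fun b k => by
    obtain ⟨b', h, -⟩ := step_mid hL b (ρ / R ^ k) (by positivity)
    exact ⟨b', h⟩
  choose f hf using hst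
  let c : ℕ → ℝ := fun k => Nat.casesOn k a (fun k => Nat.rec a1 (fun j b => f b (j + 1)) k)
  have hc : ∀ k, Nxt L (c k) (ρ / R ^ k) (c (k + 1)) := by
    intro k
    cases k with
    | zero => rw [pow_zero, div_one]; exact ha1
    | succ k => exact hf _ (k + 1)
  have hdiv : ∀ k, ρ / R ^ k / 2 ^ L = ρ / R ^ (k + 1) := fun k => by
    rw [div_div, ← hR, pow_succ]
  have hmono : Monotone c := monotone_nat_of_le_succ (fun k => (hc k).1)
  have hanti : Antitone (fun k => c k + ρ / R ^ k) := antitone_nat_of_succ_le (fun k => by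
    have := (hc k).2.1
    rwa [hdiv] at this)
  have hle : c ≤ fun k => c k + ρ / R ^ k := fun k => by
    have : 0 < ρ / R ^ k := by positivity
    show c k ≤ c k + ρ / R ^ k
    linarith
  have hx := hmono.ciSup_mem_iInter_Icc_of_antitone hanti hle
  rw [Set.mem_iInter] at hx
  set x : ℝ := ⨆ n, c n with hxd
  have hgood : ∀ m, ∀ A B : ℤ, Hex A B → 1 ≤ A * R * ρ → A * R * (ρ / R ^ m) < 1 →
        ∀ y : ℝ, c m ≤ y → y ≤ c m + ρ / R ^ m → 1 / R ^ 2 ≤ |2 * (A:ℝ) * y + B| := by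
    intro m
    induction m with
    | zero =>
      intro A B hAB h1 h2
      rw [pow_zero, div_one] at h2
      linarith
    | succ m ih =>
      intro A B hAB h1 h2 y h3 h4
      by_cases h5 : A * R * (ρ / R ^ m) < 1
      · refine ih A B hAB h1 h5 y ((hmono (Nat.le_succ m)).trans h3) (h4.trans ?_)
        exact hanti (Nat.le_succ m)
      · push Not at h5
        refine (hc m).2.2 A B hAB h5 ?_ y h3 (by rw [hdiv]; exact h4)
        have e : A * R * (ρ / R ^ (m + 1)) = A * (ρ / R ^ m) := by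
          rw [pow_succ]; field_simp
        rwa [e] at h2
  refine ⟨x, c, ?_, ?_, ?_, fun m => ⟨hmono (Nat.zero_le m), ?_, (hx m).1, (hx m).2, hgood m⟩⟩
  · exact ha2.trans (hx 1).1
  · refine (hx 1).2.trans ?_
    have e : ρ / R ^ 1 = ρ / 2 ^ L := by rw [pow_one]
    show a1 + ρ / R ^ 1 ≤ _
    rw [e]
    exact ha3
  · intro A B hAB h1
    obtain ⟨m, hm⟩ : ∃ m : ℕ, A * R * ρ < R ^ m := pow_unbounded_of_one_lt _ hR1
    refine hgood m A B hAB h1 ?_ x (hx m).1 (hx m).2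
    rw [← mul_div_assoc, div_lt_one (by positivity)]
    exact hm
  · have h : c m + ρ / R ^ m ≤ c 0 + ρ / R ^ 0 := hanti (Nat.zero_le m)
    rw [pow_zero, div_one] at h
    exact h

/-- The interval `[a, a + ρ]` avoids the centres of all previous levels. -/
def Good (L : ℕ) (A₀ a ρ : ℝ) : Prop :=
  ∀ A B : ℤ, Hex A B → A₀ ≤ A → A * (2:ℝ) ^ L * ρ < 1 → ∀ y : ℝ, a ≤ y → y ≤ a + ρ →
    1 / ((2:ℝ) ^ L) ^ 2 / 400 ≤ |2 * (A:ℝ) * y + B|

lemma exists_partner (p : ℤ) {q : ℤ} (hq : 1 ≤ q) (hco : IsCoprime p q) : ∃ p' q' : ℤ,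
    p * q' - q * p' = 1 ∧ q ≤ q' ∧ q' ≤ 2 * q := by
  obtain ⟨u, v, huv⟩ := hco
  refine ⟨p - v + p * -(u / q), q + u % q, ?_, ?_, ?_⟩
  · have h := Int.mul_ediv_add_emod u q
    linear_combination huv + p * h
  · have := Int.emod_nonneg u (show q ≠ 0 by omega)
    omega
  · have := Int.emod_lt_of_pos u (show 0 < q by omega)
    omega

/-- a rational number which stays away from all centres -/
lemma exists_rational {x ρ A₁ ε : ℝ} {n : ℕ} (hε : 0 < ε) (hε1 : ε ≤ 1)
    (hx : ∀ A B : ℤ, Hex A B → A₁ ≤ A → ε ≤ |2 * (A:ℝ) * x + B|) {r : ℚ}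
    (h1 : |x - r| ≤ 1 / ((n + 1) * r.den)) (h2 : r.den ≤ n) (h3 : 48 / ρ ≤ (r.den:ℝ) ^ 2) :
    ∃ P Q : ℤ, 1 ≤ Q ∧ Q ≤ 2 * n ∧ 48 / ρ ≤ (Q:ℝ) ^ 2 ∧ |x - P / Q| ≤ 6 / (Q:ℝ) ^ 2 ∧
      ∀ A B : ℤ, Hex A B → A₁ ≤ A → ε / 200 ≤ |2 * (A:ℝ) * (P / Q) + B| := by
  set p : ℤ := r.num with hp
  set q : ℤ := (r.den : ℤ) with hq
  have hq1 : 1 ≤ q := by rw [hq]; exact_mod_cast r.pos
  have hqr : ((r.den : ℕ) : ℝ) = (q:ℝ) := by rw [hq]; simp
  have hr : (r:ℝ) = p / q := by
    rw [hp, hq]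
    push_cast
    exact Rat.cast_def r
  have hco : IsCoprime p q := by
    rw [hp, hq, Int.isCoprime_iff_nat_coprime]
    simpa using r.reduced
  obtain ⟨p', q', hdet, hqq, hqq2⟩ := exists_partner p hq1 hco
  have hqn : (q:ℝ) ≤ n := by rw [← hqr]; exact_mod_cast h2
  have hqpos : (0:ℝ) < q := by exact_mod_cast (by omega : 0 < q)
  have hqpos' : (0:ℝ) < q' := by exact_mod_cast (by omega : 0 < q')
  rw [hqr] at h1 h3
  rw [hr] at h1
  have g1 : |x - p / q| ≤ 1 / (q:ℝ) ^ 2 := by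
    refine h1.trans ?_
    apply one_div_le_one_div_of_le (by positivity)
    nlinarith
  have g1' : |x - p / q| ≤ 6 / (q:ℝ) ^ 2 := by
    refine g1.trans ?_
    gcongr
    norm_num
  have hqqr : (q:ℝ) ≤ q' := by exact_mod_cast hqq
  have hqqr2 : (q':ℝ) ≤ 2 * q := by exact_mod_cast hqq2
  have g2 : |x - p' / q'| ≤ 6 / (q':ℝ) ^ 2 := by
    have e : x - p' / q' = (x - p / q) + 1 / (q * q') := by
      have hd : (p:ℝ) * q' - q * p' = 1 := by exact_mod_cast hdet
      field_simp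
      linear_combination hd
    rw [e]
    refine (abs_add_le _ _).trans ?_
    have g3 : 1 / (q:ℝ) ^ 2 ≤ 4 / (q':ℝ) ^ 2 := by
      rw [div_le_div_iff₀ (by positivity) (by positivity)]
      nlinarith
    have g4 : |1 / ((q:ℝ) * q')| ≤ 2 / (q':ℝ) ^ 2 := by
      rw [abs_of_pos (by positivity), div_le_div_iff₀ (by positivity) (by positivity)]
      nlinarith
    have g5 : 4 / (q':ℝ) ^ 2 + 2 / (q':ℝ) ^ 2 = 6 / (q':ℝ) ^ 2 := by ring
    linarith
  rcases dichotomy hε hε1 hx hdet hq1 hqq hqq2 g1' g2 with h | h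
  · refine ⟨p, q, hq1, ?_, h3, g1', h⟩
    have : q ≤ n := by exact_mod_cast hqn
    omega
  · refine ⟨p', q', by omega, ?_, ?_, g2, h⟩
    · have : q ≤ n := by exact_mod_cast hqn
      omega
    · refine h3.trans ?_
      exact pow_le_pow_left₀ hqpos.le hqqr 2

/-- The special step: a subinterval all of whose points are close to a rational number. -/
lemma special {L : ℕ} (hL : 6 ≤ L) (H : ℕ) (hH : 1 ≤ H) : ∃ m : ℕ, ∀ A₀ a ρ : ℝ, 0 < ρ → ρ ≤ 1 →
    Good L A₀ a ρ → ∃ a', a ≤ a' ∧ a' + ρ / (2 ^ L) ^ m ≤ a + ρ ∧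
      Good L A₀ a' (ρ / (2 ^ L) ^ m) ∧ ∀ y, a' ≤ y → y ≤ a' + ρ / (2 ^ L) ^ m →
        ∃ p q : ℤ, q ≠ 0 ∧ |q * y - p| * |(q:ℝ)| ≤ 2 / H := by
  set R : ℝ := (2:ℝ) ^ L with hR
  have hR0 : 0 < R := by positivity
  have hR64 : 64 ≤ R := by
    have : (2:ℝ) ^ 6 ≤ 2 ^ L := pow_le_pow_right₀ (by norm_num) hL
    calc (64:ℝ) = 2 ^ 6 := by norm_num
      _ ≤ R := this
  have hH1 : (1:ℝ) ≤ H := by exact_mod_cast hH
  set G : ℝ := H + 800 * R ^ 2 with hG
  have hGH : (H:ℝ) ≤ G := by rw [hG]; have : 0 ≤ 800 * R ^ 2 := by positivity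
                             linarith
  have hG8 : 800 * R ^ 2 ≤ G := by rw [hG]; linarith
  have hG1 : 1 ≤ G := hH1.trans hGH
  obtain ⟨m, hm⟩ : ∃ m : ℕ, 768 * H ^ 2 * G < R ^ m :=
    pow_unbounded_of_one_lt _ (by linarith)
  refine ⟨m, fun A₀ a ρ hρ hρ1 hgood => ?_⟩
  set t : ℝ := ρ / R ^ m with ht
  have ht0 : 0 < t := by positivity
  have hRm : 0 < R ^ m := by positivity
  have hRm2 : 768 * (H:ℝ) ≤ R ^ m := by
    have : (H:ℝ) ≤ H ^ 2 * G := by nlinarith
    linarith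
  have htR : t * R ^ m = ρ := by rw [ht]; field_simp
  obtain ⟨x, c, hx1, hx2, hx3, hx4⟩ := chain hL a ρ hρ
  set Q₀ : ℝ := √(48 / ρ) with hQ0
  have hQ0sq : Q₀ ^ 2 = 48 / ρ := Real.sq_sqrt (by positivity)
  have hQ01 : 1 ≤ Q₀ := by
    rw [hQ0, Real.one_le_sqrt, le_div_iff₀ hρ]
    linarith
  set n : ℕ := ⌈H * Q₀⌉₊ with hn
  have hn1 : H * Q₀ ≤ n := Nat.le_ceil _
  have hn2 : (n:ℝ) < H * Q₀ + 1 := Nat.ceil_lt_add_one (by positivity)
  have hHQ : 1 ≤ H * Q₀ := by nlinarith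
  have hn0 : 0 < n := by
    have : (0:ℝ) < n := by linarith
    exact_mod_cast this
  obtain ⟨r, hr1, hr2⟩ := Real.exists_rat_abs_sub_le_and_den_le x hn0
  have hden : (0:ℝ) < r.den := by exact_mod_cast r.pos
  by_cases hcase : (r.den:ℝ) ^ 2 < 48 / ρ
  · obtain ⟨d1, d2, d3, d4, d5⟩ := hx4 m
    refine ⟨c m, d1, d2, ?_, ?_⟩
    · intro A B hAB hA0 h1 y h2 h3
      by_cases h4 : 1 ≤ A * R * ρ
      · have h5 := d5 A B hAB h4 h1 y h2 h3
        have h6 : 0 < 1 / R ^ 2 := by positivity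
        linarith
      · push Not at h4
        exact hgood A B hAB hA0 h4 y (by linarith) (by linarith)
    · intro y h2 h3
      refine ⟨r.num, r.den, by exact_mod_cast r.den_nz, ?_⟩
      have hrc : (r:ℝ) = r.num / r.den := Rat.cast_def r
      have e : ((r.den : ℤ) : ℝ) * y - r.num = r.den * ((y - x) + (x - r)) := by
        rw [hrc]
        push_cast
        field_simp
        ring
      rw [e, abs_mul]
      push_cast
      rw [abs_of_pos hden]
      have e2 : |y - x| ≤ t := by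
        rw [abs_le]; constructor <;> linarith
      have e3 := abs_add_le (y - x) (x - r)
      have e4 : (r.den:ℝ) * |y - x + (x - r)| * r.den ≤
          (r.den:ℝ) ^ 2 * t + (r.den:ℝ) ^ 2 * (1 / ((n + 1) * r.den)) := by
        have : (r.den:ℝ) * |y - x + (x - r)| * r.den = (r.den:ℝ) ^ 2 * |y - x + (x - r)| := by ring
        rw [this, ← mul_add]
        exact mul_le_mul_of_nonneg_left (by linarith) (by positivity)
      have e5 : (r.den:ℝ) ^ 2 * t ≤ 1 / H := by
        have h6 : (r.den:ℝ) ^ 2 * t ≤ 48 / ρ * t := mul_le_mul_of_nonneg_right hcase.le ht0.le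
        have h7 : 48 / ρ * t = 48 / R ^ m := by rw [ht]; field_simp
        rw [h7] at h6
        refine h6.trans ?_
        rw [div_le_div_iff₀ hRm (by linarith)]
        linarith
      have e6 : (r.den:ℝ) ^ 2 * (1 / ((n + 1) * r.den)) ≤ 1 / H := by
        have h6 : (r.den:ℝ) ^ 2 * (1 / ((n + 1) * r.den)) = r.den / (n + 1) := by field_simp
        rw [h6, div_le_div_iff₀ (by positivity) (by linarith)]
        have h7 : (r.den:ℝ) < Q₀ := by
          rw [← hQ0sq] at hcase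
          exact lt_of_pow_lt_pow_left₀ 2 (by positivity) hcase
        nlinarith
      have e7 : 1 / (H:ℝ) + 1 / H = 2 / H := by ring
      linarith
  · push Not at hcase
    have hxA : ∀ A B : ℤ, Hex A B → 1 / (R * ρ) ≤ A → 1 / R ^ 2 ≤ |2 * (A:ℝ) * x + B| := by
      intro A B hAB h1
      refine hx3 A B hAB ?_
      rw [div_le_iff₀ (by positivity)] at h1
      linarith
    obtain ⟨P, Q, hQ1, hQn, hQ48, hxP, hP⟩ := exists_rational (by positivity)
      (by rw [div_le_one (by positivity)]; nlinarith) hxA hr1 hr2 hcase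
    have hQr : (1:ℝ) ≤ Q := by exact_mod_cast hQ1
    have hQr0 : (0:ℝ) < Q := by linarith
    have hQnr : (Q:ℝ) ≤ 2 * n := by exact_mod_cast hQn
    have hQt : (Q:ℝ) ^ 2 * t * G ≤ 1 := by
      have h1 : (Q:ℝ) ≤ 4 * (H * Q₀) := by linarith
      have h2 : (Q:ℝ) ^ 2 ≤ 768 * H ^ 2 / ρ := by
        calc (Q:ℝ) ^ 2 ≤ (4 * (H * Q₀)) ^ 2 := pow_le_pow_left₀ hQr0.le h1 2
          _ = 16 * H ^ 2 * Q₀ ^ 2 := by ring
          _ = 768 * H ^ 2 / ρ := by rw [hQ0sq]; ring
      calc (Q:ℝ) ^ 2 * t * G ≤ 768 * H ^ 2 / ρ * t * G := by gcongr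
        _ = 768 * H ^ 2 * G / R ^ m := by rw [ht]; field_simp
        _ ≤ 1 := by rw [div_le_one hRm]; exact hm.le
    have hxP2 : |x - P / Q| ≤ ρ / 8 := by
      refine hxP.trans ?_
      rw [div_le_iff₀ (by positivity)]
      rw [div_le_iff₀ hρ] at hQ48
      linarith
    have ht8 : t ≤ ρ / 8 := by
      rw [ht]
      apply div_le_div_of_nonneg_left hρ.le (by norm_num)
      linarith
    rw [abs_le] at hxP2
    refine ⟨P / Q, by linarith, by linarith, ?_, ?_⟩
    · intro A B hAB hA0 h1 y h2 h3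
      by_cases h4 : 1 ≤ A * R * ρ
      · have h5 := hP A B hAB (by rw [div_le_iff₀ (by positivity)]; linarith)
        have hA : (0:ℝ) < A := by exact_mod_cast hAB.1
        have e : 2 * (A:ℝ) * y + B = (2 * (A:ℝ) * (P / Q) + B) + 2 * A * (y - P / Q) := by ring
        have e2 : |2 * (A:ℝ) * (y - P / Q)| ≤ 2 * A * t := by
          rw [abs_of_nonneg (by apply mul_nonneg; positivity; linarith)]
          apply mul_le_mul_of_nonneg_left _ (by positivity)
          linarith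
        have e3 : |2 * (A:ℝ) * (P / Q) + B| - |2 * (A:ℝ) * (y - P / Q)| ≤ |2 * (A:ℝ) * y + B| := by
          rw [e]
          have := abs_sub_abs_le_abs_sub (2 * (A:ℝ) * (P / Q) + B) (-(2 * A * (y - P / Q)))
          rwa [abs_neg, sub_neg_eq_add] at this
        by_cases h6 : (A:ℝ) ≤ Q ^ 2
        · have h7 : 2 * A * t ≤ 1 / R ^ 2 / 400 := by
            have h8 : 2 * (A:ℝ) * t * G ≤ 2 := by
              have : (A:ℝ) * (t * G) ≤ Q ^ 2 * (t * G) :=
                mul_le_mul_of_nonneg_right h6 (by positivity)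
              linarith
            rw [le_div_iff₀ (by norm_num), le_div_iff₀ (by positivity)]
            have h9 : 2 * (A:ℝ) * t * (800 * R ^ 2) ≤ 2 * (A:ℝ) * t * G :=
              mul_le_mul_of_nonneg_left hG8 (by positivity)
            linarith
          have h10 : 1 / R ^ 2 / 200 = 1 / R ^ 2 / 400 + 1 / R ^ 2 / 400 := by ring
          linarith
        · push Not at h6
          obtain ⟨hA', C, hC⟩ := id hAB
          have hCr : (B:ℝ) ^ 2 + 3 = 4 * A * C := by exact_mod_cast hC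
          have eN : 4 * (A:ℝ) * ((A * P ^ 2 + B * P * Q + C * Q ^ 2 : ℤ) : ℝ) =
              Q ^ 2 * ((2 * (A:ℝ) * (P / Q) + B) ^ 2 + 3) := by
            push_cast
            field_simp
            linear_combination -(Q:ℝ) ^ 2 * hCr
          have hN1 : (1:ℤ) ≤ A * P ^ 2 + B * P * Q + C * Q ^ 2 := by
            have : (0:ℝ) < ((A * P ^ 2 + B * P * Q + C * Q ^ 2 : ℤ) : ℝ) := by
              have h7 : 0 < 4 * (A:ℝ) * ((A * P ^ 2 + B * P * Q + C * Q ^ 2 : ℤ) : ℝ) := by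
                rw [eN]; positivity
              exact (mul_pos_iff_of_pos_left (by positivity)).1 h7
            have : 0 < A * P ^ 2 + B * P * Q + C * Q ^ 2 := by exact_mod_cast this
            omega
          have hN1r : (1:ℝ) ≤ ((A * P ^ 2 + B * P * Q + C * Q ^ 2 : ℤ) : ℝ) := by
            exact_mod_cast hN1
          have h7 : 1 ≤ |2 * (A:ℝ) * (P / Q) + B| := by
            have h8 : (4:ℝ) * A ≤ Q ^ 2 * ((2 * (A:ℝ) * (P / Q) + B) ^ 2 + 3) := by
              rw [← eN]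
              nlinarith
            have h9 : (Q:ℝ) ^ 2 * 4 < Q ^ 2 * ((2 * (A:ℝ) * (P / Q) + B) ^ 2 + 3) := by linarith
            have h10 := lt_of_mul_lt_mul_left h9 (by positivity)
            have h11 : (1:ℝ) ^ 2 ≤ |2 * (A:ℝ) * (P / Q) + B| ^ 2 := by
              rw [sq_abs]; linarith
            exact (sq_le_sq₀ (by norm_num) (abs_nonneg _)).1 h11
          have h8 : 2 * (A:ℝ) * t ≤ 1 / 2 := by
            have : (A:ℝ) * t * 64 ≤ A * t * R := mul_le_mul_of_nonneg_left hR64 (by positivity)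
            have e4 : (A:ℝ) * t * R = A * R * t := by ring
            linarith
          have h9 : 1 / R ^ 2 / 400 ≤ 1 / 2 := by
            have : 1 / R ^ 2 ≤ 1 := by rw [div_le_one (by positivity)]; nlinarith
            linarith
          linarith
      · push Not at h4
        exact hgood A B hAB hA0 h4 y (by linarith) (by linarith)
    · intro y h2 h3
      refine ⟨P, Q, by omega, ?_⟩
      have e : (Q:ℝ) * y - P = Q * (y - P / Q) := by field_simp
      rw [e, abs_mul, abs_of_pos hQr0, abs_of_nonneg (by linarith)]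
      have h4 : (Q:ℝ) * (y - P / Q) * Q ≤ Q ^ 2 * t := by
        have : (Q:ℝ) ^ 2 * (y - P / Q) ≤ Q ^ 2 * t :=
          mul_le_mul_of_nonneg_left (by linarith) (by positivity)
        linarith
      refine h4.trans ?_
      rw [le_div_iff₀ (by linarith)]
      have h5 : (Q:ℝ) ^ 2 * t * H ≤ Q ^ 2 * t * G := mul_le_mul_of_nonneg_left hGH (by positivity)
      linarith

end Pool.Agent.U517.DE
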