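import Pool.Agent.U517.DE.DI
import Pool.Agent.U517.DE.Step
import Pool.Agent.Y754.GD.Dim

set_option autoImplicit false

/-!
# The Cantor set and its dimension
-/

namespace Pool.Agent.U517.DE

open Finset

/-- a schedule for the special steps -/
lemma sched (w : ℕ → ℕ) (hw0 : w 0 = 0) : ∃ h : ℕ → ℕ, (∀ k, 1 ≤ k → ∃ n, h n = k) ∧
    ∀ n, ∑ i ∈ range n, w (h i) ≤ n := by
  let nx : ℕ → ℕ × ℕ → ℕ × ℕ := fun n s => if s.2 + w s.1 ≤ n then (s.1 + 1, s.2 + w s.1) else s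
  let st : ℕ → ℕ × ℕ := fun n => Nat.rec (1, 0) (fun n s => nx n s) n
  have hst : ∀ n, st (n + 1) = nx n (st n) := fun n => rfl
  let h : ℕ → ℕ := fun n => if (st n).2 + w (st n).1 ≤ n then (st n).1 else 0
  refine ⟨h, ?_, ?_⟩
  · have hP : ∀ n k, (st n).1 = k → ∃ n', (st n').1 = k ∧ (st n').2 + w k ≤ n' := by
      intro n k hk
      by_contra hcon
      push Not at hcon
      have hconst : ∀ j, st (n + j) = st n := by
        intro j
        induction j with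
        | zero => rfl
        | succ j ih =>
          rw [← add_assoc, hst]
          have h1 := hcon (n + j) (by rw [ih]; exact hk)
          have h2 : ¬ ((st (n + j)).2 + w (st (n + j)).1 ≤ n + j) := by
            rw [ih] at h1 ⊢
            rw [hk]
            omega
          simp only [nx, if_neg h2]
          exact ih
      have h3 := hcon (n + ((st n).2 + w k)) (by rw [hconst]; exact hk)
      rw [hconst] at h3
      omega
    have hQ : ∀ k, 1 ≤ k → ∃ n, (st n).1 = k := by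
      intro k hk
      induction k, hk using Nat.le_induction with
      | base => exact ⟨0, rfl⟩
      | succ k hk ih =>
        obtain ⟨n, hn⟩ := ih
        obtain ⟨n', h1, h2⟩ := hP n k hn
        refine ⟨n' + 1, ?_⟩
        rw [hst]
        have h3 : (st n').2 + w (st n').1 ≤ n' := by rw [h1]; exact h2
        simp only [nx, if_pos h3, h1]
    intro k hk
    obtain ⟨n, hn⟩ := hQ k hk
    obtain ⟨n', h1, h2⟩ := hP n k hn
    refine ⟨n', ?_⟩
    have h3 : (st n').2 + w (st n').1 ≤ n' := by rw [h1]; exact h2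
    simp only [h, if_pos h3, h1]
  · have hinv : ∀ n, ∑ i ∈ range n, w (h i) = (st n).2 ∧ (st n).2 ≤ n := by
      intro n
      induction n with
      | zero => exact ⟨rfl, le_refl _⟩
      | succ n ih =>
        rw [sum_range_succ, ih.1, hst]
        by_cases h3 : (st n).2 + w (st n).1 ≤ n
        · simp only [h, nx, if_pos h3]
          exact ⟨trivial, by omega⟩
        · simp only [h, nx, if_neg h3, hw0, add_zero]
          exact ⟨trivial, by omega⟩
    intro n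
    rw [(hinv n).1]
    exact (hinv n).2

/-- The points of an interval which avoid the centres and are not badly approximable. -/
def Tgt (L : ℕ) (A₀ : ℝ) : Set ℝ :=
  {x | (∀ A B : ℤ, Hex A B → A₀ ≤ A → 1 / ((2:ℝ) ^ L) ^ 2 / 400 ≤ |2 * (A:ℝ) * x + B|) ∧
    ∀ k : ℕ, 1 ≤ k → ∃ p q : ℤ, q ≠ 0 ∧ |q * x - p| * |(q:ℝ)| ≤ 2 / k}

theorem tree {L : ℕ} (hL : 6 ≤ L) {s : ℝ} (hs : 0 < s) (hsL : (L + 1) * s ≤ L - 2) (a₀ : ℝ)
    {ρ₀ : ℝ} (hρ₀ : 0 < ρ₀) (hρ1 : ρ₀ ≤ 1) : ∃ A₀ : ℝ,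
    ENNReal.ofReal s ≤ dimH (Tgt L A₀ ∩ Set.Icc a₀ (a₀ + ρ₀)) := by
  classical
  set R : ℝ := (2:ℝ) ^ L with hR
  have hR0 : 0 < R := by positivity
  have hR1 : 1 < R := one_lt_pow₀ (by norm_num) (by omega)
  refine ⟨1 / (R * ρ₀), ?_⟩
  set A₀ : ℝ := 1 / (R * ρ₀) with hA₀
  -- the special steps
  have hsp : ∀ k : ℕ, ∃ m : ℕ, (k = 0 → m = 0) ∧ ∀ a ρ : ℝ, 0 < ρ → ρ ≤ 1 →
      Good L A₀ a ρ → ∃ a', a ≤ a' ∧ a' + ρ / R ^ m ≤ a + ρ ∧
      Good L A₀ a' (ρ / R ^ m) ∧ ∀ y, a' ≤ y → y ≤ a' + ρ / R ^ m → 1 ≤ k →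
        ∃ p q : ℤ, q ≠ 0 ∧ |q * y - p| * |(q:ℝ)| ≤ 2 / k := by
    intro k
    rcases Nat.eq_zero_or_pos k with hk | hk
    · refine ⟨0, fun _ => rfl, fun a ρ _ _ hg => ⟨a, le_refl _, ?_, ?_, fun y _ _ h1 => ?_⟩⟩
      · simp
      · simpa using hg
      · omega
    · obtain ⟨m, hm⟩ := special hL k hk
      refine ⟨m, fun h => by omega, fun a ρ h1 h2 h3 => ?_⟩
      obtain ⟨a', h4, h5, h6, h7⟩ := hm A₀ a ρ h1 h2 h3
      exact ⟨a', h4, h5, h6, fun y h8 h9 _ => h7 y h8 h9⟩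
  choose mm hmm0 hmm using hsp
  obtain ⟨h, hh1, hh2⟩ := sched (fun k => L * mm k) (by simp [hmm0 0 rfl])
  set σ : ℕ → ℕ := fun n => ∑ i ∈ range n, mm (h i) with hσ
  have hσL : ∀ n, L * σ n ≤ n := fun n => by
    have := hh2 n
    rwa [← mul_sum] at this
  set ℓ : ℕ → ℝ := fun n => ρ₀ / R ^ (n + σ n) with hℓ
  have hℓ0 : ∀ n, 0 < ℓ n := fun n => by rw [hℓ]; positivity
  have hℓ1 : ∀ n, ℓ n ≤ 1 := fun n => by
    rw [hℓ]
    simp only
    rw [div_le_one (by positivity)]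
    exact hρ1.trans (one_le_pow₀ hR1.le)
  have hℓs : ∀ n, ℓ n / R ^ mm (h n) / R = ℓ (n + 1) := fun n => by
    simp only [hℓ]
    rw [div_div, div_div, ← pow_succ, ← pow_add]
    congr 2
    simp only [hσ, sum_range_succ]
    ring
  set K : ℕ := 2 ^ (L - 2) with hK
  have hK2 : 2 ≤ K := by
    have := two_mul_lt_pow hL
    omega
  let St : ℕ → Type := fun n => {a : ℝ // a₀ ≤ a ∧ a + ℓ n ≤ a₀ + ρ₀ ∧ Good L A₀ a (ℓ n)}
  have hstep : ∀ n (p : St n), ∃ c : Fin K → St (n + 1),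
      (∀ d, p.1 ≤ (c d).1 ∧ (c d).1 + ℓ (n + 1) ≤ p.1 + ℓ n ∧
        ∀ y, (c d).1 ≤ y → y ≤ (c d).1 + ℓ (n + 1) → 1 ≤ h n →
          ∃ p q : ℤ, q ≠ 0 ∧ |q * y - p| * |(q:ℝ)| ≤ 2 / (h n : ℕ)) ∧
      ∀ d d', d ≠ d' → 2 * ℓ (n + 1) ≤ |(c d).1 - (c d').1| := by
    intro n p
    obtain ⟨a', g1, g2, g3, g4⟩ := hmm (h n) p.1 (ℓ n) (hℓ0 n) (hℓ1 n) p.2.2.2
    have hρ' : 0 < ℓ n / R ^ mm (h n) := div_pos (hℓ0 n) (by positivity)
    set ρ' : ℝ := ℓ n / R ^ mm (h n) with hρ'd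
    have hs1 : ρ' / R = ℓ (n + 1) := hℓs n
    obtain ⟨S, f1, f2, f3⟩ := free L (by omega) (a := a') hρ'
    have hcard : K ≤ S.card := by
      have h1 := two_mul_lt_pow hL
      have h2 : 2 ^ (L - 1) = 2 * 2 ^ (L - 2) := by
        rw [← pow_succ']
        congr 1
        omega
      omega
    obtain ⟨S', hS', hcS'⟩ := exists_subset_card_eq hcard
    let e := S'.equivFinOfCardEq hcS'
    have hi : ∀ d : Fin K, ((e.symm d).1 : ℕ) ∈ S := fun d => hS' (e.symm d).2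
    have hN : ∀ d : Fin K, Nxt L a' ρ' (a' + 2 * ((e.symm d).1 : ℕ) * (ρ' / 2 ^ L)) := fun d =>
      nxt_of (by omega) hρ' (f1 _ (hi d)) (f3 _ (hi d))
    refine ⟨fun d => ⟨a' + 2 * ((e.symm d).1 : ℕ) * (ρ' / 2 ^ L), ?_, ?_, ?_⟩, ?_, ?_⟩
    · exact (p.2.1.trans g1).trans (hN d).1
    · have h1 := (hN d).2.1
      rw [← hR, hs1] at h1
      have h2 := p.2.2.1
      rw [hs1]
      linarith
    · intro A B hAB hA0 h1 y h2 h3
      rw [← hR] at h1
      by_cases h4 : A * R * ρ' < 1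
      · refine g3 A B hAB hA0 h4 y ((hN d).1.trans h2) (h3.trans ?_)
        have h5 := (hN d).2.1
        rw [← hR, hs1] at h5
        rw [← hR, hs1]
        exact h5
      · push Not at h4
        have h5 : A * ρ' < 1 := by
          rw [← hs1] at h1
          have e3 : (A:ℝ) * R * (ρ' / R) = A * ρ' := by field_simp
          rwa [e3] at h1
        have e9 : ρ' / 2 ^ L = ℓ (n + 1) := by rw [← hR]; exact hs1
        have h6 := (hN d).2.2 A B hAB h4 h5 y h2 (by rw [e9] at h3 ⊢; exact h3)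
        have h7 : 0 < 1 / R ^ 2 := by positivity
        rw [← hR] at h6
        rw [← hR]
        linarith
    · intro d
      have h1 := (hN d).2.1
      rw [← hR, hs1] at h1
      refine ⟨g1.trans (hN d).1, ?_, ?_⟩
      · show a' + 2 * ((e.symm d).1 : ℕ) * (ρ' / 2 ^ L) + ℓ (n + 1) ≤ p.1 + ℓ n
        rw [← hR, hs1]
        linarith
      · intro y h2 h3 h4
        refine g4 y ((hN d).1.trans h2) (h3.trans ?_) h4
        show a' + 2 * ((e.symm d).1 : ℕ) * (ρ' / 2 ^ L) + ℓ (n + 1) ≤ _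
        rw [← hR, hs1]
        linarith
    · intro d d' hdd
      show 2 * ℓ (n + 1) ≤ |a' + 2 * ((e.symm d).1 : ℕ) * (ρ' / 2 ^ L) -
        (a' + 2 * ((e.symm d').1 : ℕ) * (ρ' / 2 ^ L))|
      rw [← hR, hs1]
      have hne : ((e.symm d).1 : ℕ) ≠ (e.symm d').1 := fun h1 =>
        hdd (e.symm.injective (Subtype.ext h1))
      have e2 : a' + 2 * ((e.symm d).1 : ℝ) * ℓ (n + 1) -
          (a' + 2 * ((e.symm d').1 : ℝ) * ℓ (n + 1)) =
          (((e.symm d).1 : ℝ) - ((e.symm d').1 : ℝ)) * (2 * ℓ (n + 1)) := by ring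
      rw [e2, abs_mul, abs_of_pos (by linarith [hℓ0 (n + 1)] : (0:ℝ) < 2 * ℓ (n + 1))]
      have h2 : (1:ℝ) ≤ |((e.symm d).1 : ℝ) - ((e.symm d').1 : ℝ)| := by
        have : (1:ℤ) ≤ |(((e.symm d).1 : ℕ) : ℤ) - (((e.symm d').1 : ℕ) : ℤ)| := by
          apply Int.one_le_abs
          intro h0
          apply hne
          omega
        exact_mod_cast this
      have := hℓ0 (n + 1)
      nlinarith
  choose nxt hnxt1 hnxt2 using hstep
  have h0 : a₀ ≤ a₀ ∧ a₀ + ℓ 0 ≤ a₀ + ρ₀ ∧ Good L A₀ a₀ (ℓ 0) := by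
    have e0 : ℓ 0 = ρ₀ := by simp [hℓ, hσ]
    refine ⟨le_refl _, by rw [e0], ?_⟩
    intro A B hAB hA0 h1
    exfalso
    rw [e0, ← hR] at h1
    rw [hA₀, div_le_iff₀ (by positivity)] at hA0
    linarith
  let seq : (ℕ → Fin K) → (n : ℕ) → St n := fun t n =>
    Nat.rec (motive := St) ⟨a₀, h0⟩ (fun n s => nxt n s (t n)) n
  have hseq : ∀ t n, seq t (n + 1) = nxt n (seq t n) (t n) := fun t n => rfl
  have hseq1 : ∀ t n, (seq t n).1 ≤ (seq t (n + 1)).1 := fun t n => (hnxt1 n (seq t n) (t n)).1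
  have hseq2 : ∀ t n, (seq t (n + 1)).1 + ℓ (n + 1) ≤ (seq t n).1 + ℓ n := fun t n =>
    (hnxt1 n (seq t n) (t n)).2.1
  let pt : (ℕ → Fin K) → ℝ := fun t => ⨆ n, (seq t n).1
  have hpt : ∀ t n, (seq t n).1 ≤ pt t ∧ pt t ≤ (seq t n).1 + ℓ n := by
    intro t n
    have hmono : Monotone (fun n => (seq t n).1) := monotone_nat_of_le_succ (hseq1 t)
    have hanti : Antitone (fun n => (seq t n).1 + ℓ n) := antitone_nat_of_succ_le (hseq2 t)
    have hle : (fun n => (seq t n).1) ≤ fun n => (seq t n).1 + ℓ n := fun k => by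
      show (seq t k).1 ≤ (seq t k).1 + ℓ k
      linarith [hℓ0 k]
    have hx := hmono.ciSup_mem_iInter_Icc_of_antitone hanti hle
    rw [Set.mem_iInter] at hx
    exact hx n
  have hagree : ∀ (t t' : ℕ → Fin K) (n : ℕ), (∀ i < n, t i = t' i) → seq t n = seq t' n := by
    intro t t' n
    induction n with
    | zero => intro _; rfl
    | succ n ih =>
      intro h1
      rw [hseq, hseq, ih (fun i hi => h1 i (by omega)), h1 n (by omega)]
  refine le_trans (Pool.Agent.Y754.GD.dimH_range_ge K hK2 pt (1 / (2 * R)) (ρ₀ / (2 * R)) s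
    (by positivity) (by positivity) hs ?_ ?_) (dimH_mono ?_)
  · have e1 : (1 / (2 * R)) = (2:ℝ) ^ (-((L:ℝ) + 1)) := by
      rw [Real.rpow_neg (by norm_num), Real.rpow_add (by norm_num), Real.rpow_natCast,
        Real.rpow_one, hR, one_div, mul_comm]
    have e2 : ((K:ℕ):ℝ)⁻¹ = (2:ℝ) ^ (-((L:ℝ) - 2)) := by
      have h1 : ((L - 2 : ℕ) : ℝ) = (L:ℝ) - 2 := by
        rw [Nat.cast_sub (by omega)]
        norm_num
      rw [Real.rpow_neg (by norm_num), ← h1, Real.rpow_natCast, hK]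
      push_cast
      rfl
    rw [e1, e2, ← Real.rpow_mul (by norm_num)]
    apply Real.rpow_le_rpow_of_exponent_le (by norm_num)
    linarith
  · intro t t' n h1 h2
    have h3 := hagree t t' n h1
    have h4 := hnxt2 n (seq t n) (t n) (t' n) h2
    have h5 := hpt t (n + 1)
    have h6 := hpt t' (n + 1)
    rw [hseq] at h5 h6
    rw [← h3] at h6
    have h7 : (1 / (2 * R)) ^ n * (ρ₀ / (2 * R)) ≤ ℓ (n + 1) := by
      have e1 : (1 / (2 * R)) ^ n * (ρ₀ / (2 * R)) = ρ₀ / (2 ^ (n + 1) * R ^ (n + 1)) := by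
        rw [← mul_pow, pow_succ, one_div, inv_pow]
        field_simp
      rw [e1]
      simp only [hℓ]
      apply div_le_div_of_nonneg_left hρ₀.le (by positivity)
      rw [pow_add R, mul_comm]
      apply mul_le_mul_of_nonneg_right _ (by positivity)
      rw [hR, ← pow_mul]
      exact pow_le_pow_right₀ (by norm_num) (hσL (n + 1))
    refine h7.trans ?_
    rw [le_abs] at h4 ⊢
    rcases h4 with h4 | h4
    · left; linarith
    · right; linarith
  · rintro _ ⟨t, rfl⟩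
    have hpt0 := hpt t 0
    have e0 : ℓ 0 = ρ₀ := by simp [hℓ, hσ]
    have es : (seq t 0).1 = a₀ := rfl
    refine ⟨⟨?_, ?_⟩, by linarith [hpt0.1], by linarith [hpt0.2]⟩
    · intro A B hAB hA0
      obtain ⟨n, hn⟩ : ∃ n : ℕ, A * R * ρ₀ < R ^ n := pow_unbounded_of_one_lt _ hR1
      refine (seq t n).2.2.2 A B hAB hA0 ?_ (pt t) (hpt t n).1 (hpt t n).2
      rw [← hR]
      simp only [hℓ]
      rw [← mul_div_assoc, div_lt_one (by positivity)]
      exact lt_of_lt_of_le hn (pow_le_pow_right₀ hR1.le (by omega))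
    · intro k hk
      obtain ⟨n, hn⟩ := hh1 k hk
      have h1 := (hnxt1 n (seq t n) (t n)).2.2 (pt t) (hpt t (n + 1)).1 (hpt t (n + 1)).2
        (by rw [hn]; exact hk)
      rwa [hn] at h1

end Pool.Agent.U517.DE
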